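import Pool.Agent.H27.G.R_seed8.H341R2.MonicSum

/-! Character sums over extensions of a finite field, grouped by minimal polynomials. -/

set_option autoImplicit false

namespace Pool.Agent.H341R2.Sharp

open Polynomial Finset IntermediateField

section Norm

variable {F E : Type*} [Field F] [Field E] [Algebra F E] [FiniteDimensional F E]
  [Algebra.IsSeparable F E]

theorem norm_gen (x : E) (f : F[X]) :
    Algebra.norm F (aeval (AdjoinSimple.gen F x) f) =
      resultant (minpoly F x) f (minpoly F x).natDegree f.natDegree := by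
  classical
  set P := minpoly F x with hP
  let Ω := AlgebraicClosure F
  have hx : IsIntegral F x := Algebra.IsIntegral.isIntegral x
  have : Algebra.IsSeparable F F⟮x⟯ := Algebra.isSeparable_tower_bot_of_isSeparable F F⟮x⟯ E
  apply (algebraMap F Ω).injective
  rw [Algebra.norm_eq_prod_embeddings F Ω]
  have h1 : ∀ σ : F⟮x⟯ →ₐ[F] Ω, σ (aeval (AdjoinSimple.gen F x) f) =
      aeval (σ (AdjoinSimple.gen F x)) f := fun σ => (aeval_algHom_apply σ _ f).symm
  simp_rw [h1]
  have hsplit : (P.map (algebraMap F Ω)).Splits := IsAlgClosed.splits _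
  have hmon : P.Monic := minpoly.monic hx
  have hsep : P.Separable := Algebra.IsSeparable.isSeparable F x
  have h2 : ∏ σ : F⟮x⟯ →ₐ[F] Ω, aeval (σ (AdjoinSimple.gen F x)) f =
      ((P.map (algebraMap F Ω)).roots.map (f.map (algebraMap F Ω)).eval).prod := by
    have h3 : ∏ σ : F⟮x⟯ →ₐ[F] Ω, aeval (σ (AdjoinSimple.gen F x)) f =
        ∏ a : { a // a ∈ P.aroots Ω }, (aeval (a : Ω) f) := by
      refine Fintype.prod_equiv (algHomAdjoinIntegralEquiv F hx) _ _ ?_
      intro σ
      congr 1
    rw [h3, Finset.prod_mem_multiset (P.aroots Ω) (fun a => aeval (a : Ω) f) (fun a => aeval a f)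
      (fun _ => rfl), Finset.prod_eq_multiset_prod, Multiset.toFinset_val,
      Multiset.dedup_eq_self.mpr (nodup_roots hsep.map)]
    congr 1
    apply Multiset.map_congr rfl
    intro a _
    rw [eval_map_algebraMap]
  rw [h2, ← resultant_map_map]
  have h4 := resultant_eq_prod_eval (P.map (algebraMap F Ω)) (f.map (algebraMap F Ω)) f.natDegree
    natDegree_map_le hsplit
  rw [natDegree_map] at h4
  rw [h4, (hmon.map _).leadingCoeff, one_pow, one_mul]

theorem finrank_div (x : E) :
    Module.finrank F⟮x⟯ E = Module.finrank F E / (minpoly F x).natDegree ∧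
      (minpoly F x).natDegree ∣ Module.finrank F E := by
  have hx : IsIntegral F x := Algebra.IsIntegral.isIntegral x
  have h1 := Module.finrank_mul_finrank F F⟮x⟯ E
  rw [adjoin.finrank hx] at h1
  have h2 : 0 < (minpoly F x).natDegree := minpoly.natDegree_pos hx
  refine ⟨?_, ?_⟩
  · rw [← h1, Nat.mul_div_cancel_left _ h2]
  · exact ⟨_, h1.symm⟩

theorem norm_aeval (x : E) (f : F[X]) :
    Algebra.norm F (aeval x f) =
      (resultant (minpoly F x) f (minpoly F x).natDegree f.natDegree) ^
        (Module.finrank F E / (minpoly F x).natDegree) := by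
  have h1 : aeval x f = algebraMap F⟮x⟯ E (aeval (AdjoinSimple.gen F x) f) := by
    rw [← aeval_algebraMap_apply, AdjoinSimple.algebraMap_gen]
  rw [h1, ← Algebra.norm_norm (S := F⟮x⟯), Algebra.norm_algebraMap, map_pow, norm_gen,
    (finrank_div x).1]

end Norm

section Char

variable {F E : Type*} [Field F] [Fintype F] [DecidableEq F] [Field E] [Fintype E] [DecidableEq E]
  [Algebra F E]

theorem qc_norm (hF : ringChar F ≠ 2) (y : E) :
    quadraticChar E y = quadraticChar F (Algebra.norm F y) := by
  have hE : ringChar E ≠ 2 := by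
    rwa [← Algebra.ringChar_eq F E]
  have hval : ∀ (K : Type _) [Field K] [Fintype K] [DecidableEq K] (z : K),
      quadraticChar K z ∈ ({0, 1, -1} : Set ℤ) := by
    intro K _ _ _ z
    by_cases h0 : z = 0
    · simp [h0]
    · rcases quadraticChar_dichotomy h0 with h | h <;> simp [h]
  have hval' : quadraticChar F (Algebra.norm F y) ∈ ({0, 1, -1} : Set ℤ) := by
    by_cases h0 : Algebra.norm F y = 0
    · simp [h0]
    · rcases quadraticChar_dichotomy h0 with h | h <;> simp [h]
  apply Int.cast_injOn_of_ringChar_ne_two hE (hval E y) hval'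
  rw [quadraticChar_eq_pow_of_char_ne_two' hE]
  have h1 : ((quadraticChar F (Algebra.norm F y) : ℤ) : E) =
      algebraMap F E ((quadraticChar F (Algebra.norm F y) : ℤ) : F) := by
    simp
  rw [h1, quadraticChar_eq_pow_of_char_ne_two' hF, map_pow, FiniteField.algebraMap_norm_eq_pow,
    ← pow_mul]
  congr 1
  obtain ⟨t, ht⟩ : Odd (Fintype.card F) := by
    rw [← Nat.not_even_iff_odd]
    intro h
    exact hF ((FiniteField.even_card_iff_char_two).2 (Nat.even_iff.1 h))
  have ht0 : 0 < t := by
    have := Fintype.one_lt_card (α := F)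
    omega
  have hcard : Fintype.card E = Fintype.card F ^ Module.finrank F E := Module.card_eq_pow_finrank
  obtain ⟨s, hs⟩ : Fintype.card F - 1 ∣ Fintype.card E - 1 := by
    rw [hcard]
    simpa using Nat.sub_dvd_pow_sub_pow (Fintype.card F) 1 (Module.finrank F E)
  rw [Nat.card_eq_fintype_card, Nat.card_eq_fintype_card, hs]
  have h3 : Fintype.card F - 1 = 2 * t := by omega
  have h5 : 0 < Fintype.card E := Fintype.card_pos
  have h4 : Fintype.card E = 2 * (t * s) + 1 := by
    rw [h3] at hs
    have : 2 * t * s = 2 * (t * s) := by ring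
    omega
  rw [h3, Nat.mul_div_cancel_left _ (by omega), h4, ht]
  have h6 : (2 * (t * s) + 1) / 2 = t * s := by omega
  have h7 : (2 * t + 1) / 2 = t := by omega
  rw [h6, h7, mul_comm]

theorem qc_aeval (hF : ringChar F ≠ 2) (f : F[X]) (x : E) :
    quadraticChar E (aeval x f) =
      lam f (minpoly F x) ^ (Module.finrank F E / (minpoly F x).natDegree) := by
  rw [qc_norm hF, norm_aeval, map_pow]
  rfl

theorem T_eq_sum (hF : ringChar F ≠ 2) (f : F[X]) :
    T f (Module.finrank F E) = ∑ x : E, quadraticChar E (aeval x f) := by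
  classical
  set m := Module.finrank F E with hm
  have hm0 : 0 < m := Module.finrank_pos
  unfold T
  have h1 : ∀ x ∈ (univ : Finset E), minpoly F x ∈ (Irr F m).filter (fun P => P.natDegree ∣ m) := by
    intro x _
    have hx : IsIntegral F x := Algebra.IsIntegral.isIntegral x
    rw [mem_filter, mem_Irr]
    refine ⟨⟨minpoly.monic hx, minpoly.irreducible hx, Nat.le_of_dvd hm0 (finrank_div x).2⟩,
      (finrank_div x).2⟩
  rw [← sum_fiberwise_of_maps_to h1]
  apply sum_congr rfl
  intro P hP
  rw [mem_filter, mem_Irr] at hP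
  obtain ⟨⟨hmon, hirr, _⟩, hdvd⟩ := hP
  have h2 : ∀ x ∈ univ.filter (fun x : E => minpoly F x = P), quadraticChar E (aeval x f) =
      lam f P ^ (m / P.natDegree) := by
    intro x hx
    rw [mem_filter] at hx
    rw [qc_aeval hF, hx.2]
  rw [sum_congr rfl h2, sum_const, nsmul_eq_mul]
  congr 2
  have h3 : univ.filter (fun x : E => minpoly F x = P) = (P.rootSet E).toFinset := by
    ext x
    rw [mem_filter, Set.mem_toFinset, mem_rootSet]
    constructor
    · rintro ⟨_, rfl⟩
      exact ⟨hmon.ne_zero, minpoly.aeval F x⟩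
    · rintro ⟨_, h⟩
      exact ⟨mem_univ _, (minpoly.eq_of_irreducible_of_monic hirr h hmon).symm⟩
  have hsplit : (P.map (algebraMap F E)).Splits := by
    have h4 : P ∣ X ^ (Nat.card F) ^ m - X :=
      (hirr.natDegree_dvd_iff_dvd_X_pow_card_pow_sub_X).1 hdvd
    have h5 : (P.map (algebraMap F E)) ∣ (X ^ (Nat.card F) ^ m - X : E[X]) := by
      have := Polynomial.map_dvd (algebraMap F E) h4
      simpa using this
    have hcard : (Nat.card F) ^ m = Fintype.card E := by
      rw [Nat.card_eq_fintype_card, Module.card_eq_pow_finrank (K := F) (V := E)]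
    rw [hcard] at h5
    have h6 : (X ^ Fintype.card E - X : E[X]).Splits := by
      rw [splits_iff_card_roots, FiniteField.roots_X_pow_card_sub_X,
        FiniteField.X_pow_card_sub_X_natDegree_eq _ Fintype.one_lt_card]
      rfl
    exact h6.of_dvd (FiniteField.X_pow_card_sub_X_ne_zero _ Fintype.one_lt_card) h5
  rw [h3, Set.toFinset_card, card_rootSet_eq_natDegree (PerfectField.separable_of_irreducible hirr)
    hsplit]

end Char

end Pool.Agent.H341R2.Sharp
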